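import Pool.Agent.H7.LU.ReCommon

/-!
Project LU, part C: module RE2.
-/

set_option autoImplicit false
set_option linter.unusedVariables false
set_option linter.unusedSectionVars false

open scoped BigOperators Topology
open Filter Pool.H3.L2

noncomputable section

namespace Pool.LU

namespace RE

section

variable {V : Type} [Fintype V] [DecidableEq V] {adj : V → V → Prop} {W : Type} [Group W]

/-- the group itself as a set with right action -/
def YW (R : RA V adj W) (g : (V → ℤˣ) → W) (hg : ∀ ε, R.χ (g ε) = ε) : YD R g hg where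
  Y := W
  Q := R.χ.ker
  act y a := y * a
  χ y := R.χ y
  e ε q := (q : W) * g ε
  κ y := ⟨y * (g (R.χ y))⁻¹, by rw [MonoidHom.mem_ker, map_mul, map_inv, hg, mul_inv_cancel]⟩
  rm q k := q * k
  act_one y := mul_one y
  act_mul y a b := mul_assoc y a b
  χ_act y a := map_mul _ _ _
  χ_e ε q := by
    have h : R.χ (q : W) = 1 := q.2
    rw [map_mul, hg, h, one_mul]
  κ_e ε q := by
    have h : R.χ (q : W) = 1 := q.2
    apply Subtype.ext
    show (q : W) * g ε * (g (R.χ ((q : W) * g ε)))⁻¹ = q
    rw [map_mul, hg, h, one_mul, mul_inv_cancel_right]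
  e_κ y := by
    show y * (g (R.χ y))⁻¹ * g (R.χ y) = y
    rw [inv_mul_cancel_right]
  e_s ε q v := by
    show (q : W) * g ε * R.s v = (q : W) * (g ε * R.s v * (g (ε * Pi.mulSingle v (-1)))⁻¹) *
      g (ε * Pi.mulSingle v (-1))
    group

variable {R : RA V adj W} {g : (V → ℤˣ) → W} {hg : ∀ ε, R.χ (g ε) = ε}

theorem phi_supp (F : Type) [CommRing F] (rf : RaFacts R) (D : YD R g hg)
    (c : CubS adj → D.Q → F) (hc : ∀ s, (Function.support (c s)).Finite) (σ : Finset V) :
    (Function.support (phi F rf D c σ)).Finite := by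
  by_cases h : Clq adj σ
  · have hfin : (⋃ ε : V → ℤˣ, (fun q => D.act (D.e (eps σ ε) q) (hs rf σ ε)⁻¹) ''
        Function.support (c (cub adj σ h ε))).Finite :=
      Set.finite_iUnion fun ε => (hc _).image _
    apply hfin.subset
    intro y hy
    rw [Function.mem_support, phi_pos F rf D c h] at hy
    rw [Set.mem_iUnion]
    refine ⟨D.χ y, D.κ (D.act y (hs rf σ (D.χ y))), ?_, ?_⟩
    · rw [Function.mem_support]
      intro h0
      rw [h0, mul_zero] at hy
      exact hy rfl
    · have h1 : D.χ (D.act y (hs rf σ (D.χ y))) = eps σ (D.χ y) := by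
        rw [D.χ_act, hs_χ]
        funext v
        rw [Pi.mul_apply]
        unfold eps
        split_ifs
        · exact Int.units_mul_self _
        · rw [mul_one]
      show D.act (D.e (eps σ (D.χ y)) (D.κ (D.act y (hs rf σ (D.χ y))))) (hs rf σ (D.χ y))⁻¹ = y
      rw [← h1, D.e_κ, D.act_mul, mul_inv_cancel, D.act_one]
  · rw [phi_neg F rf D c h]
    simp

theorem aug_eq (x : GR R.χ.ker) (T : Finset R.χ.ker) (hT : x.coeff.support ⊆ T) :
    aug x = ∑ q ∈ T, x.coeff q := by
  unfold aug
  rw [Finsupp.sum]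
  apply Finset.sum_subset hT
  intro q _ hq
  exact Finsupp.notMem_support_iff.1 hq

theorem coeff_vecMul (o : V → ℕ) (v : CubS adj → GR R.χ.ker) (t : CubS adj) (q : R.χ.ker) :
    (Matrix.vecMul v (cubD R g hg o) t).coeff q =
    ∑ s : CubS adj, ∑ u ∈ s.1.1, if t.1.1 = s.1.1.erase u then
      ((sg o u (s.1.1.erase u) : ℤ) : ℤ) *
      ((if t.1.2 = s.1.2 then (v s).coeff q else 0) -
       (if t.1.2 = s.1.2 * Pi.mulSingle u (-1) then
        (v s).coeff (q * (tr R g hg s.1.2 u)⁻¹) else 0)) else 0 := by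
  have h0 : Matrix.vecMul v (cubD R g hg o) t = ∑ s : CubS adj, v s * cubD R g hg o s t := rfl
  have h1 : ∀ (ι : Type) (T : Finset ι) (f : ι → GR R.χ.ker),
      (∑ i ∈ T, f i).coeff q = ∑ i ∈ T, (f i).coeff q := by
    intro ι T f
    rw [MonoidAlgebra.coeff_sum, Finsupp.finsetSum_apply]
  rw [h0, h1]
  apply Finset.sum_congr rfl
  intro s _
  unfold cubD
  rw [Finset.mul_sum, h1]
  apply Finset.sum_congr rfl
  intro u _
  by_cases hA : t.1.1 = s.1.1.erase u
  · rw [if_pos hA, if_pos hA, mul_smul_comm, mul_sub, MonoidAlgebra.coeff_smul,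
      Finsupp.smul_apply, MonoidAlgebra.coeff_sub, Finsupp.sub_apply, smul_eq_mul]
    congr 1
    congr 1
    · by_cases hB : t.1.2 = s.1.2
      · rw [if_pos hB, if_pos hB, mul_one]
      · rw [if_neg hB, if_neg hB, mul_zero]; rfl
    · by_cases hC : t.1.2 = s.1.2 * Pi.mulSingle u (-1)
      · rw [if_pos hC, if_pos hC, MonoidAlgebra.coeff_mul_single_apply, mul_one]
      · rw [if_neg hC, if_neg hC, mul_zero]; rfl
  · rw [if_neg hA, if_neg hA, mul_zero]; rfl

end

end RE

open RE

theorem re2 (hRAF : RAFStmt) : RE2Stmt := by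
  intro V _ _ adj hsymm hirr W _ R o ho g hg
  have rf := hRAF V adj W R
  let D := RE.YW R g hg
  let cf : (CubS adj → GR R.χ.ker) → CubS adj → D.Q → ℤ := fun v s q => (v s).coeff q
  let Φ : (CubS adj → GR R.χ.ker) →ₗ[ℤ] (Finset V → W → ℤ) :=
    { toFun := fun v => RE.phi ℤ rf D (cf v)
      map_add' := fun v v' => by
        have : cf (v + v') = cf v + cf v' := by
          funext s q
          show (v s + v' s).coeff q = _
          rw [MonoidAlgebra.coeff_add]
          rfl
        rw [this]
        exact RE.phi_add ℤ rf D _ _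
      map_smul' := fun a v => by
        have : cf (a • v) = a • cf v := by
          funext s q
          show (a • v s).coeff q = _
          rw [MonoidAlgebra.coeff_smul]
          rfl
        rw [this]
        exact RE.phi_smul ℤ rf D _ _ }
  have hΦ : ∀ v, Φ v = RE.phi ℤ rf D (cf v) := fun v => rfl
  have hcf : ∀ v v', cf v = cf v' → v = v' := by
    intro v v' h
    funext s
    apply MonoidAlgebra.coeff_injective
    ext q
    exact congrFun (congrFun h s) q
  have hsupp : ∀ v s, (Function.support (cf v s)).Finite := by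
    intro v s
    exact (v s).coeff.finite_support
  refine ⟨Φ, ?_, ?_, ?_, ?_, ?_⟩
  · intro v v' h
    exact hcf v v' (RE.phi_inj ℤ rf D h)
  · intro x
    constructor
    · rintro ⟨v, rfl⟩
      exact ⟨RE.phi_AllCh ℤ rf D (cf v), fun σ => RE.phi_supp ℤ rf D (cf v) (hsupp v) σ⟩
    · rintro ⟨hx, hf⟩
      have hfin : ∀ s : CubS adj, (Function.support fun q : R.χ.ker =>
          x s.1.1 ((q : W) * g s.1.2)).Finite := by
        intro s
        have h1 : (Function.support fun q : R.χ.ker => x s.1.1 ((q : W) * g s.1.2)) =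
            (fun q : R.χ.ker => (q : W) * g s.1.2) ⁻¹' Function.support (x s.1.1) := rfl
        rw [h1]
        apply (hf s.1.1).preimage
        intro a _ b _ hab
        exact Subtype.ext (mul_right_cancel hab)
      refine ⟨fun s => MonoidAlgebra.ofCoeff (Finsupp.ofSupportFinite _ (hfin s)), ?_⟩
      have h2 := RE.recon ℤ rf D x hx
      rw [hΦ]
      exact h2
  · intro v k
    refine Iff.trans ?_ (RE.phi_deg ℤ rf D (cf v) k)
    constructor
    · intro h s q hs
      show (v s).coeff q = 0
      rw [h s hs]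
      rfl
    · intro h s hs
      apply MonoidAlgebra.coeff_injective
      ext q
      exact h s q hs
  · intro v
    rw [hΦ, hΦ]
    refine Eq.trans ?_ (RE.phi_DD ℤ rf D o (cf v))
    congr 1
    funext t q
    exact (RE.coeff_vecMul o v t q).trans rfl
  · intro v
    have hcl : Clq adj (∅ : Finset V) := fun u hu => absurd hu (Finset.notMem_empty u)
    let se : (V → ℤˣ) → CubS adj := fun ε => ⟨(∅, ε), hcl, fun v hv => absurd hv (Finset.notMem_empty v)⟩
    have h1 : ∀ w : W, Φ v ∅ w = (v (se (R.χ w))).coeff (D.κ w) := by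
      intro w
      have := RE.phi_e ℤ rf D (cf v) (se (D.χ w)) (D.κ w)
      have h2 : D.e (se (D.χ w)).1.2 (D.κ w) = w := D.e_κ w
      rw [h2] at this
      exact this
    let E : W ≃ (V → ℤˣ) × R.χ.ker :=
      { toFun := fun w => (D.χ w, D.κ w)
        invFun := fun p => D.e p.1 p.2
        left_inv := fun w => D.e_κ w
        right_inv := fun p => Prod.ext (D.χ_e _ _) (D.κ_e _ _) }
    have h2 : ∑ᶠ w, Φ v ∅ w = ∑ᶠ p : (V → ℤˣ) × R.χ.ker, (v (se p.1)).coeff p.2 := by
      rw [← finsum_comp_equiv E]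
      apply finsum_congr
      intro w
      exact h1 w
    rw [h2]
    classical
    let T : Finset R.χ.ker := Finset.univ.biUnion fun ε : V → ℤˣ => (v (se ε)).coeff.support
    have hT : ∀ ε, (v (se ε)).coeff.support ⊆ T := fun ε =>
      Finset.subset_biUnion_of_mem (fun ε : V → ℤˣ => (v (se ε)).coeff.support) (Finset.mem_univ ε)
    have h3 : (Function.support fun p : (V → ℤˣ) × R.χ.ker => (v (se p.1)).coeff p.2) ⊆
        ((Finset.univ ×ˢ T : Finset ((V → ℤˣ) × R.χ.ker)) : Set ((V → ℤˣ) × R.χ.ker)) := by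
      intro p hp
      rw [Finset.mem_coe, Finset.mem_product]
      exact ⟨Finset.mem_univ _, hT p.1 (Finsupp.mem_support_iff.2 hp)⟩
    rw [finsum_eq_sum_of_support_subset _ h3, Finset.sum_product]
    have h4 : ∀ ε, ∑ q ∈ T, (v (se ε)).coeff q = aug (v (se ε)) := fun ε => (aug_eq _ T (hT ε)).symm
    rw [Finset.sum_congr rfl fun ε _ => h4 ε, ← Finset.sum_filter]
    apply Finset.sum_nbij' (fun s => s.1.2) se
    · intro s _; exact Finset.mem_univ _
    · intro ε _
      rw [Finset.mem_filter]
      exact ⟨Finset.mem_univ _, rfl⟩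
    · intro s hs
      rw [Finset.mem_filter] at hs
      apply Subtype.ext
      apply Prod.ext
      · exact hs.2.symm
      · rfl
    · intro ε _; rfl
    · intro s hs
      rw [Finset.mem_filter] at hs
      congr 2
      apply Subtype.ext
      apply Prod.ext
      · exact hs.2
      · rfl

end Pool.LU
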