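import Pool.Agent.H7.LU.ReCommon

/-!
Project LU, part C: module RE3.
-/

set_option autoImplicit false
set_option linter.unusedVariables false
set_option linter.unusedSectionVars false

open scoped BigOperators Topology
open Filter Pool.H3.L2

noncomputable section

namespace Pool.LU

namespace RE

section

variable {V : Type} [Fintype V] [DecidableEq V] {adj : V → V → Prop} {W : Type} [Group W]

/-- the part of an element of `W` in the kernel -/
def kp (R : RA V adj W) (g : (V → ℤˣ) → W) (hg : ∀ ε, R.χ (g ε) = ε) (w : W) : R.χ.ker :=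
  ⟨w * (g (R.χ w))⁻¹, by rw [MonoidHom.mem_ker, map_mul, map_inv, hg, mul_inv_cancel]⟩

theorem kp_eq (R : RA V adj W) (g : (V → ℤˣ) → W) (hg : ∀ ε, R.χ (g ε) = ε) (w : W) :
    ((kp R g hg w : R.χ.ker) : W) * g (R.χ w) = w := by
  show w * (g (R.χ w))⁻¹ * g (R.χ w) = w
  rw [inv_mul_cancel_right]

variable (R : RA V adj W) (g : (V → ℤˣ) → W) (hg : ∀ ε, R.χ (g ε) = ε)
  (N : Subgroup R.χ.ker) [N.Normal] [N.FiniteIndex] (h1 : N.map R.χ.ker.subtype ≤ R.χ.ker)
  (h2 : (N.map R.χ.ker.subtype).FiniteIndex)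

theorem rel_iff (a b : W) : (QuotientGroup.rightRel (N.map R.χ.ker.subtype)) a b ↔
    ∃ n ∈ N, b = (n : W) * a := by
  rw [QuotientGroup.rightRel_apply, Subgroup.mem_map]
  constructor
  · rintro ⟨n, hn, h⟩
    refine ⟨n, hn, ?_⟩
    have h' : (n : W) = b * a⁻¹ := h
    rw [h', inv_mul_cancel_right]
  · rintro ⟨n, hn, rfl⟩
    exact ⟨n, hn, by rw [mul_inv_cancel_right]; rfl⟩

/-- the cosets as a set with right action -/
def YN : YD R g hg where
  Y := Quotient (QuotientGroup.rightRel (N.map R.χ.ker.subtype))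
  Q := R.χ.ker ⧸ N
  act y a := Quotient.map (fun w => w * a) (by
    intro x x' h
    obtain ⟨n, hn, rfl⟩ := (rel_iff R N x x').1 h
    exact (rel_iff R N _ _).2 ⟨n, hn, mul_assoc _ _ _⟩) y
  χ y := Quotient.lift (fun w => R.χ w) (by
    intro x x' h
    obtain ⟨n, hn, rfl⟩ := (rel_iff R N x x').1 h
    show R.χ x = R.χ ((n : W) * x)
    have : R.χ (n : W) = 1 := n.2
    rw [map_mul, this, one_mul]) y
  e ε q := Quotient.lift (fun γ : R.χ.ker =>
      (Quotient.mk (QuotientGroup.rightRel (N.map R.χ.ker.subtype)) ((γ : W) * g ε))) (by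
    intro a b hab
    have hab' : a⁻¹ * b ∈ N := QuotientGroup.leftRel_apply.1 hab
    apply Quotient.sound
    refine (rel_iff R N _ _).2 ⟨a * (a⁻¹ * b) * a⁻¹, ?_, ?_⟩
    · exact ‹N.Normal›.conj_mem _ hab' a
    · push_cast
      group) q
  κ y := Quotient.lift (fun w => (QuotientGroup.mk (kp R g hg w) : R.χ.ker ⧸ N)) (by
    intro x x' h
    obtain ⟨n, hn, rfl⟩ := (rel_iff R N x x').1 h
    apply QuotientGroup.eq.2
    have h3 : (kp R g hg x)⁻¹ * kp R g hg ((n : W) * x) =
        (kp R g hg x)⁻¹ * n * ((kp R g hg x)⁻¹)⁻¹ := by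
      have h4 : kp R g hg ((n : W) * x) = n * kp R g hg x := by
        apply Subtype.ext
        show (n : W) * x * (g (R.χ ((n : W) * x)))⁻¹ = (n : W) * (x * (g (R.χ x))⁻¹)
        have : R.χ (n : W) = 1 := n.2
        rw [map_mul, this, one_mul, mul_assoc]
      rw [h4, inv_inv, mul_assoc]
    rw [h3]
    exact ‹N.Normal›.conj_mem _ hn _) y
  rm q k := q * (QuotientGroup.mk k : R.χ.ker ⧸ N)
  act_one := by
    rintro ⟨w⟩
    exact congrArg (Quotient.mk _) (mul_one w)
  act_mul := by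
    rintro ⟨w⟩ a b
    exact congrArg (Quotient.mk _) (mul_assoc w a b)
  χ_act := by
    rintro ⟨w⟩ a
    exact map_mul R.χ w a
  χ_e := by
    rintro ε ⟨γ⟩
    show R.χ ((γ : W) * g ε) = ε
    have : R.χ (γ : W) = 1 := γ.2
    rw [map_mul, this, hg, one_mul]
  κ_e := by
    rintro ε ⟨γ⟩
    show (QuotientGroup.mk (kp R g hg ((γ : W) * g ε)) : R.χ.ker ⧸ N) = QuotientGroup.mk γ
    congr 1
    apply Subtype.ext
    show (γ : W) * g ε * (g (R.χ ((γ : W) * g ε)))⁻¹ = γ
    have : R.χ (γ : W) = 1 := γ.2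
    rw [map_mul, this, hg, one_mul, mul_inv_cancel_right]
  e_κ := by
    rintro ⟨w⟩
    exact congrArg (Quotient.mk _) (kp_eq R g hg w)
  e_s := by
    rintro ε ⟨γ⟩ v
    show Quotient.mk (QuotientGroup.rightRel (N.map R.χ.ker.subtype)) ((γ : W) * g ε * R.s v) =
      Quotient.mk (QuotientGroup.rightRel (N.map R.χ.ker.subtype))
        (((γ * tr R g hg ε v : R.χ.ker) : W) * g (ε * Pi.mulSingle v (-1)))
    congr 1
    show (γ : W) * g ε * R.s v = (γ : W) * (g ε * R.s v * (g (ε * Pi.mulSingle v (-1)))⁻¹) *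
      g (ε * Pi.mulSingle v (-1))
    group

variable {R g hg N}

theorem coeff_vecMul3 (F : Type) [Field F] (o : V → ℕ) [Fintype (R.χ.ker ⧸ N)]
    (v : CubS adj × (R.χ.ker ⧸ N) → F) (t : CubS adj) (q : R.χ.ker ⧸ N) :
    Matrix.vecMul v ((regM (QuotientGroup.mk' N) (cubD R g hg o)).map (Int.castRingHom F)) (t, q) =
    ∑ s : CubS adj, ∑ u ∈ s.1.1, if t.1.1 = s.1.1.erase u then
      ((sg o u (s.1.1.erase u) : ℤ) : F) *
      ((if t.1.2 = s.1.2 then v (s, q) else 0) -
       (if t.1.2 = s.1.2 * Pi.mulSingle u (-1) then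
        v (s, q * (QuotientGroup.mk (tr R g hg s.1.2 u)⁻¹ : R.χ.ker ⧸ N)) else 0)) else 0 := by
  classical
  have h0 : Matrix.vecMul v ((regM (QuotientGroup.mk' N) (cubD R g hg o)).map
      (Int.castRingHom F)) (t, q) = ∑ s : CubS adj, ∑ a : R.χ.ker ⧸ N, v (s, a) *
      (((MonoidAlgebra.mapDomain (QuotientGroup.mk' N) (cubD R g hg o s t)).coeff (a⁻¹ * q) : ℤ) : F) := by
    rw [Matrix.vecMul, dotProduct, Fintype.sum_prod_type]
    rfl
  rw [h0]
  apply Finset.sum_congr rfl
  intro s _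
  have hmap : ∀ x : GR R.χ.ker, MonoidAlgebra.mapDomain (QuotientGroup.mk' N) x =
      MonoidAlgebra.mapDomainRingHom ℤ (QuotientGroup.mk' N) x := fun _ => rfl
  have h3 : ∀ b : R.χ.ker ⧸ N,
      (MonoidAlgebra.mapDomain (QuotientGroup.mk' N) (cubD R g hg o s t)).coeff b =
      ∑ u ∈ s.1.1, if t.1.1 = s.1.1.erase u then (sg o u (s.1.1.erase u) : ℤ) *
      ((if t.1.2 = s.1.2 then (if b = 1 then (1 : ℤ) else 0) else 0) -
       (if t.1.2 = s.1.2 * Pi.mulSingle u (-1) then
        (if b = QuotientGroup.mk (tr R g hg s.1.2 u) then (1 : ℤ) else 0) else 0)) else 0 := by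
    intro b
    have h1 : ∀ (ι : Type) (T : Finset ι) (f : ι → MonoidAlgebra ℤ (R.χ.ker ⧸ N)),
        (∑ i ∈ T, f i).coeff b = ∑ i ∈ T, (f i).coeff b := by
      intro ι T f
      rw [MonoidAlgebra.coeff_sum, Finsupp.finsetSum_apply]
    unfold cubD
    rw [hmap, map_sum, h1]
    apply Finset.sum_congr rfl
    intro u _
    by_cases hA : t.1.1 = s.1.1.erase u
    · rw [if_pos hA, if_pos hA, map_zsmul, map_sub, MonoidAlgebra.coeff_smul,
        Finsupp.smul_apply, MonoidAlgebra.coeff_sub, Finsupp.sub_apply, smul_eq_mul]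
      congr 1
      congr 1
      · by_cases hB : t.1.2 = s.1.2
        · rw [if_pos hB, if_pos hB, map_one, MonoidAlgebra.one_def, MonoidAlgebra.coeff_single,
            Finsupp.single_apply]
          by_cases hb : b = 1
          · rw [if_pos hb, if_pos hb.symm]
          · rw [if_neg hb, if_neg (fun h => hb h.symm)]
        · rw [if_neg hB, if_neg hB, map_zero]; rfl
      · by_cases hC : t.1.2 = s.1.2 * Pi.mulSingle u (-1)
        · rw [if_pos hC, if_pos hC, ← hmap, MonoidAlgebra.mapDomain_single,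
            MonoidAlgebra.coeff_single, Finsupp.single_apply]
          by_cases hb : b = QuotientGroup.mk (tr R g hg s.1.2 u)
          · rw [if_pos hb]; exact if_pos hb.symm
          · rw [if_neg hb]; exact if_neg (fun h => hb h.symm)
        · rw [if_neg hC, if_neg hC, map_zero]; rfl
    · rw [if_neg hA, if_neg hA, map_zero]; rfl
  have h4 : ∀ a : R.χ.ker ⧸ N, v (s, a) *
      (((MonoidAlgebra.mapDomain (QuotientGroup.mk' N) (cubD R g hg o s t)).coeff (a⁻¹ * q) : ℤ) : F) =
      ∑ u ∈ s.1.1, if t.1.1 = s.1.1.erase u then ((sg o u (s.1.1.erase u) : ℤ) : F) *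
      ((if t.1.2 = s.1.2 then (if a = q then v (s, a) else 0) else 0) -
       (if t.1.2 = s.1.2 * Pi.mulSingle u (-1) then
        (if a = q * (QuotientGroup.mk (tr R g hg s.1.2 u)⁻¹ : R.χ.ker ⧸ N) then v (s, a) else 0)
        else 0)) else 0 := by
    intro a
    rw [h3, Int.cast_sum, Finset.mul_sum]
    apply Finset.sum_congr rfl
    intro u _
    by_cases hA : t.1.1 = s.1.1.erase u
    · rw [if_pos hA, if_pos hA, Int.cast_mul, ← mul_assoc, mul_comm (v (s, a)), mul_assoc]
      congr 1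
      rw [Int.cast_sub, mul_sub]
      congr 1
      · by_cases hB : t.1.2 = s.1.2
        · rw [if_pos hB, if_pos hB]
          by_cases hb : a = q
          · rw [if_pos hb, if_pos (by rw [hb, inv_mul_cancel]), Int.cast_one, mul_one]
          · rw [if_neg hb, if_neg (fun h => hb (inv_mul_eq_one.1 h)), Int.cast_zero, mul_zero]
        · rw [if_neg hB, if_neg hB, Int.cast_zero, mul_zero]
      · by_cases hC : t.1.2 = s.1.2 * Pi.mulSingle u (-1)
        · rw [if_pos hC, if_pos hC]
          have hiff : a⁻¹ * q = QuotientGroup.mk (tr R g hg s.1.2 u) ↔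
              a = q * (QuotientGroup.mk (tr R g hg s.1.2 u)⁻¹ : R.χ.ker ⧸ N) := by
            rw [QuotientGroup.mk_inv]
            generalize (QuotientGroup.mk (tr R g hg s.1.2 u) : R.χ.ker ⧸ N) = k
            constructor
            · intro h
              rw [← h]; group
            · intro h
              rw [h]; group
          by_cases hb : a = q * (QuotientGroup.mk (tr R g hg s.1.2 u)⁻¹ : R.χ.ker ⧸ N)
          · rw [if_pos hb, if_pos (hiff.2 hb), Int.cast_one, mul_one]
          · rw [if_neg hb, if_neg (fun h => hb (hiff.1 h)), Int.cast_zero, mul_zero]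
        · rw [if_neg hC, if_neg hC, Int.cast_zero, mul_zero]
    · rw [if_neg hA, if_neg hA, Int.cast_zero, mul_zero]
  rw [Finset.sum_congr rfl fun a _ => h4 a, Finset.sum_comm]
  apply Finset.sum_congr rfl
  intro u _
  by_cases hA : t.1.1 = s.1.1.erase u
  · rw [if_pos hA]
    simp only [if_pos hA]
    rw [← Finset.mul_sum, Finset.sum_sub_distrib]
    congr 1
    congr 1
    · by_cases hB : t.1.2 = s.1.2
      · simp only [if_pos hB]
        rw [Finset.sum_ite_eq' Finset.univ q (fun a => v (s, a)), if_pos (Finset.mem_univ _)]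
      · simp only [if_neg hB, Finset.sum_const_zero]
    · by_cases hC : t.1.2 = s.1.2 * Pi.mulSingle u (-1)
      · simp only [if_pos hC]
        rw [Finset.sum_ite_eq' Finset.univ _ (fun a => v (s, a)), if_pos (Finset.mem_univ _)]
      · simp only [if_neg hC, Finset.sum_const_zero]
  · rw [if_neg hA]
    simp only [if_neg hA, Finset.sum_const_zero]

end

end RE

open RE

theorem re3 (hRAF : RAFStmt) : RE3Stmt := by
  intro V _ _ adj hsymm hirr W _ R o ho g hg N _ _ h1 h2 F _
  letI : Fintype (R.χ.ker ⧸ N) := Fintype.ofFinite _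
  intro X
  have rf := hRAF V adj W R
  let D := RE.YN R g hg N
  let cf : (CubS adj × (R.χ.ker ⧸ N) → F) → CubS adj → D.Q → F := fun v s q => v (s, q)
  let Φ : (CubS adj × (R.χ.ker ⧸ N) → F) →ₗ[F] (Finset V → X.X → F) :=
    { toFun := fun v => RE.phi F rf D (cf v)
      map_add' := fun v v' => RE.phi_add F rf D (cf v) (cf v')
      map_smul' := fun a v => RE.phi_smul F rf D a (cf v) }
  have hρ : ∀ (y : X.X) (v : V), X.ρ v y = D.act y (R.s v) := by
    rintro ⟨w⟩ v
    rfl
  have hAll : ∀ x : Finset V → X.X → F, AllCh adj X.ρ x ↔ AllCh adj (fun v y => D.act y (R.s v)) x := by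
    intro x
    unfold AllCh
    constructor
    · rintro ⟨h, h'⟩
      refine ⟨h, fun σ v hv y => ?_⟩
      exact (congrArg (x σ) (hρ y v)).symm.trans (h' σ v hv y)
    · rintro ⟨h, h'⟩
      refine ⟨h, fun σ v hv y => ?_⟩
      exact (congrArg (x σ) (hρ y v)).trans (h' σ v hv y)
  refine ⟨Φ, ?_, ?_, ?_, ?_⟩
  · intro v v' h
    have := RE.phi_inj F rf D h
    funext p
    exact congrFun (congrFun this p.1) p.2
  · intro x
    rw [hAll]
    constructor
    · rintro ⟨v, rfl⟩
      exact RE.phi_AllCh F rf D (cf v)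
    · intro hx
      exact ⟨fun p => x p.1.1.1 (D.e p.1.1.2 p.2), RE.recon F rf D x hx⟩
  · intro v k
    refine Iff.trans ?_ (RE.phi_deg F rf D (cf v) k)
    constructor
    · intro h s q hs
      exact h (s, q) hs
    · intro h p hp
      exact h p.1 p.2 hp
  · intro v
    refine Eq.trans ?_ (RE.phi_DD F rf D o (cf v))
    show RE.phi F rf D (cf _) = _
    congr 1
    funext t q
    exact (RE.coeff_vecMul3 F o v t q).trans rfl

end Pool.LU
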