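import Pool.Agent.H99.LU.RDefs

/-!
Project LU, part C: the common computation of the modules RE2 and RE3. A set `Y` with a right action
of `W` and signs, with coordinates `(ε, q)` in `{1,-1}^V × Q`.
-/

set_option autoImplicit false
set_option linter.unusedVariables false
set_option linter.unusedSectionVars false

open scoped BigOperators Topology
open Filter Pool.H3.L2

noncomputable section

namespace Pool.LU

namespace RE

/-- a set with right action of `W`, with coordinates -/
structure YD {V : Type} [Fintype V] [DecidableEq V] {adj : V → V → Prop} {W : Type} [Group W]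
    (R : RA V adj W) (g : (V → ℤˣ) → W) (hg : ∀ ε, R.χ (g ε) = ε) where
  Y : Type
  Q : Type
  act : Y → W → Y
  χ : Y → V → ℤˣ
  e : (V → ℤˣ) → Q → Y
  κ : Y → Q
  rm : Q → R.χ.ker → Q
  act_one : ∀ y, act y 1 = y
  act_mul : ∀ y a b, act (act y a) b = act y (a * b)
  χ_act : ∀ y a, χ (act y a) = χ y * R.χ a
  χ_e : ∀ ε q, χ (e ε q) = ε
  κ_e : ∀ ε q, κ (e ε q) = q
  e_κ : ∀ y, e (χ y) (κ y) = y
  e_s : ∀ ε q v, act (e ε q) (R.s v) = e (ε * Pi.mulSingle v (-1)) (rm q (tr R g hg ε v))

section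

variable {V : Type} [Fintype V] [DecidableEq V] {adj : V → V → Prop} {W : Type} [Group W]
  {R : RA V adj W} {g : (V → ℤˣ) → W} {hg : ∀ ε, R.χ (g ε) = ε}

/-- the coordinates in `σ` replaced by 1 -/
def eps (σ : Finset V) (ε : V → ℤˣ) : V → ℤˣ := fun v => if v ∈ σ then 1 else ε v

theorem eps_eq {σ : Finset V} {ε : V → ℤˣ} (h : ∀ v ∈ σ, ε v = 1) : eps σ ε = ε := by
  funext v
  unfold eps
  split_ifs with hv
  · exact (h v hv).symm
  · rfl

theorem ex_hs (rf : RaFacts R) (σ : Finset V) (ε : V → ℤˣ) :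
    ∃ h ∈ Subgroup.closure (R.s '' (σ : Set V)), R.χ h = fun v => if v ∈ σ then ε v else 1 :=
  rf.ex (σ : Set V) (fun v => if v ∈ σ then ε v else 1) (fun v hv => if_neg (by simpa using hv))

/-- the element of the special subgroup with given signs -/
def hs (rf : RaFacts R) (σ : Finset V) (ε : V → ℤˣ) : W := Classical.choose (ex_hs rf σ ε)

theorem hs_mem (rf : RaFacts R) (σ : Finset V) (ε : V → ℤˣ) :
    hs rf σ ε ∈ Subgroup.closure (R.s '' (σ : Set V)) := (Classical.choose_spec (ex_hs rf σ ε)).1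

theorem hs_χ (rf : RaFacts R) (σ : Finset V) (ε : V → ℤˣ) :
    R.χ (hs rf σ ε) = fun v => if v ∈ σ then ε v else 1 := (Classical.choose_spec (ex_hs rf σ ε)).2

theorem clq_set {σ : Finset V} (h : Clq adj σ) :
    ∀ u ∈ (σ : Set V), ∀ v ∈ (σ : Set V), u ≠ v → adj u v := fun u hu v hv huv => h u hu v hv huv

theorem hs_unique (rf : RaFacts R) {σ : Finset V} (hσ : Clq adj σ) (ε : V → ℤˣ) {a : W}
    (ha : a ∈ Subgroup.closure (R.s '' (σ : Set V)))
    (ha' : R.χ a = fun v => if v ∈ σ then ε v else 1) : a = hs rf σ ε := by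
  have h1 : a⁻¹ * hs rf σ ε ∈ Subgroup.closure (R.s '' (σ : Set V)) :=
    mul_mem (inv_mem ha) (hs_mem rf σ ε)
  have h2 : R.χ (a⁻¹ * hs rf σ ε) = 1 := by
    rw [map_mul, map_inv, ha', hs_χ, inv_mul_cancel]
  have h3 := rf.inj (σ : Set V) (clq_set hσ) _ h1 h2
  exact (inv_mul_eq_one.1 h3)

theorem hs_one (rf : RaFacts R) {σ : Finset V} (hσ : Clq adj σ) {ε : V → ℤˣ}
    (h : ∀ v ∈ σ, ε v = 1) : hs rf σ ε = 1 := by
  symm
  apply hs_unique rf hσ ε (one_mem _)
  rw [map_one]
  funext v
  split_ifs with hv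
  · rw [h v hv]; rfl
  · rfl

theorem hs_mul (rf : RaFacts R) {σ : Finset V} (hσ : Clq adj σ) (ε : V → ℤˣ) {v : V} (hv : v ∈ σ) :
    R.s v * hs rf σ (ε * Pi.mulSingle v (-1)) = hs rf σ ε := by
  apply hs_unique rf hσ ε
  · exact mul_mem (Subgroup.subset_closure ⟨v, by simpa using hv, rfl⟩) (hs_mem rf σ _)
  · rw [map_mul, R.χ_s, hs_χ]
    funext u
    rw [Pi.mul_apply]
    by_cases huv : u = v
    · subst huv
      rw [Pi.mulSingle_eq_same, if_pos hv, if_pos hv, Pi.mul_apply, Pi.mulSingle_eq_same]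
      rw [neg_one_mul, mul_neg_one, neg_neg]
    · rw [Pi.mulSingle_eq_of_ne huv, one_mul]
      split_ifs
      · rw [Pi.mul_apply, Pi.mulSingle_eq_of_ne huv, mul_one]
      · rfl

/-- the sign -/
def sgn (F : Type) [CommRing F] (σ : Finset V) (ε : V → ℤˣ) : F := ∏ u ∈ σ, (((ε u : ℤˣ) : ℤ) : F)

theorem sgn_mul (F : Type) [CommRing F] (σ : Finset V) (ε ε' : V → ℤˣ) :
    sgn F σ (ε * ε') = sgn F σ ε * sgn F σ ε' := by
  unfold sgn
  rw [← Finset.prod_mul_distrib]
  apply Finset.prod_congr rfl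
  intro u _
  rw [Pi.mul_apply]
  push_cast
  rfl

theorem sgn_one (F : Type) [CommRing F] {σ : Finset V} {ε : V → ℤˣ} (h : ∀ v ∈ σ, ε v = 1) :
    sgn F σ ε = 1 := by
  unfold sgn
  apply Finset.prod_eq_one
  intro u hu
  rw [h u hu]
  simp

theorem sgn_sq (F : Type) [CommRing F] (σ : Finset V) (ε : V → ℤˣ) :
    sgn F σ ε * sgn F σ ε = 1 := by
  rw [← sgn_mul]
  apply sgn_one
  intro v _
  rw [Pi.mul_apply]
  exact Int.units_mul_self _

theorem sgn_single (F : Type) [CommRing F] {σ : Finset V} {v : V} (hv : v ∈ σ) :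
    sgn F σ (Pi.mulSingle v (-1)) = -1 := by
  unfold sgn
  rw [Finset.prod_eq_single v]
  · rw [Pi.mulSingle_eq_same]; simp
  · intro u _ huv
    rw [Pi.mulSingle_eq_of_ne huv]; simp
  · intro h; exact absurd hv h

theorem sgn_congr (F : Type) [CommRing F] {σ : Finset V} {ε ε' : V → ℤˣ}
    (h : ∀ v ∈ σ, ε v = ε' v) : sgn F σ ε = sgn F σ ε' := by
  unfold sgn
  apply Finset.prod_congr rfl
  intro u hu
  rw [h u hu]

/-- the cube with given direction and signs -/
def cub (adj : V → V → Prop) (σ : Finset V) (h : Clq adj σ) (ε : V → ℤˣ) : CubS adj :=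
  ⟨(σ, eps σ ε), h, fun v hv => if_pos hv⟩

variable (F : Type) [CommRing F]

open Classical in
/-- the comparison map -/
def phi (rf : RaFacts R) (D : YD R g hg) (c : CubS adj → D.Q → F) : Finset V → D.Y → F :=
  fun σ y => if h : Clq adj σ then sgn F σ (D.χ y) *
    c (cub adj σ h (D.χ y)) (D.κ (D.act y (hs rf σ (D.χ y)))) else 0

theorem phi_pos (rf : RaFacts R) (D : YD R g hg) (c : CubS adj → D.Q → F) {σ : Finset V}
    (h : Clq adj σ) (y : D.Y) : phi F rf D c σ y = sgn F σ (D.χ y) *
    c (cub adj σ h (D.χ y)) (D.κ (D.act y (hs rf σ (D.χ y)))) := dif_pos h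

theorem phi_neg (rf : RaFacts R) (D : YD R g hg) (c : CubS adj → D.Q → F) {σ : Finset V}
    (h : ¬ Clq adj σ) : phi F rf D c σ = 0 := by
  funext y; exact dif_neg h

theorem cub_self (s : CubS adj) : cub adj s.1.1 s.2.1 s.1.2 = s := by
  apply Subtype.ext
  show (s.1.1, eps s.1.1 s.1.2) = s.1
  rw [eps_eq s.2.2]

theorem phi_e (rf : RaFacts R) (D : YD R g hg) (c : CubS adj → D.Q → F) (s : CubS adj) (q : D.Q) :
    phi F rf D c s.1.1 (D.e s.1.2 q) = c s q := by
  rw [phi_pos F rf D c s.2.1, D.χ_e, sgn_one F s.2.2, one_mul, cub_self, hs_one rf s.2.1 s.2.2,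
    D.act_one, D.κ_e]

theorem phi_add (rf : RaFacts R) (D : YD R g hg) (c c' : CubS adj → D.Q → F) :
    phi F rf D (c + c') = phi F rf D c + phi F rf D c' := by
  funext σ y
  by_cases h : Clq adj σ
  · rw [Pi.add_apply, Pi.add_apply, phi_pos F rf D _ h, phi_pos F rf D _ h, phi_pos F rf D _ h,
      Pi.add_apply, Pi.add_apply, mul_add]
  · rw [Pi.add_apply, phi_neg F rf D _ h, phi_neg F rf D _ h, phi_neg F rf D _ h, add_zero]

theorem phi_smul (rf : RaFacts R) (D : YD R g hg) (a : F) (c : CubS adj → D.Q → F) :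
    phi F rf D (a • c) = a • phi F rf D c := by
  funext σ y
  by_cases h : Clq adj σ
  · rw [Pi.smul_apply, Pi.smul_apply, phi_pos F rf D _ h, phi_pos F rf D _ h,
      Pi.smul_apply, Pi.smul_apply, smul_eq_mul, smul_eq_mul]
    ring
  · rw [Pi.smul_apply, phi_neg F rf D _ h, phi_neg F rf D _ h, smul_zero]

theorem phi_inj (rf : RaFacts R) (D : YD R g hg) {c c' : CubS adj → D.Q → F}
    (h : phi F rf D c = phi F rf D c') : c = c' := by
  funext s q
  rw [← phi_e F rf D c s q, h, phi_e]

theorem phi_AllCh (rf : RaFacts R) (D : YD R g hg) (c : CubS adj → D.Q → F) :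
    AllCh adj (fun v y => D.act y (R.s v)) (phi F rf D c) := by
  refine ⟨?_, ?_⟩
  · intro σ hσ
    by_contra h
    exact hσ (phi_neg F rf D c h)
  · intro σ v hv y
    by_cases h : Clq adj σ
    · rw [phi_pos F rf D _ h, phi_pos F rf D _ h, D.χ_act, R.χ_s, sgn_mul, sgn_single F hv,
        D.act_mul, hs_mul rf h _ hv]
      have : cub adj σ h (D.χ y * Pi.mulSingle v (-1)) = cub adj σ h (D.χ y) := by
        apply Subtype.ext
        show (σ, eps σ (D.χ y * Pi.mulSingle v (-1))) = (σ, eps σ (D.χ y))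
        congr 1
        funext u
        unfold eps
        split_ifs with hu
        · rfl
        · have : u ≠ v := fun h => hu (h ▸ hv)
          rw [Pi.mul_apply, Pi.mulSingle_eq_of_ne this, mul_one]
      rw [this]
      ring
    · rw [phi_neg F rf D _ h]; simp

/-- antisymmetry under the special subgroup -/
theorem asym (D : YD R g hg) {σ : Finset V} (f : D.Y → F)
    (hf : ∀ v ∈ σ, ∀ y, f (D.act y (R.s v)) = - f y) {h : W}
    (hh : h ∈ Subgroup.closure (R.s '' (σ : Set V))) :
    ∀ y, f (D.act y h) = sgn F σ (R.χ h) * f y := by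
  induction hh using Subgroup.closure_induction with
  | mem x hx =>
    obtain ⟨v, hv, rfl⟩ := hx
    intro y
    rw [hf v (by simpa using hv), R.χ_s, sgn_single F (by simpa using hv), neg_one_mul]
  | one =>
    intro y
    rw [D.act_one, map_one, sgn_one F (ε := (1 : V → ℤˣ)) (fun v _ => rfl), one_mul]
  | mul a b _ _ ha hb =>
    intro y
    rw [← D.act_mul, hb, ha, map_mul, sgn_mul]
    ring
  | inv a _ ha =>
    intro y
    have h1 := ha (D.act y a⁻¹)
    rw [D.act_mul, inv_mul_cancel, D.act_one] at h1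
    have h2 : sgn F σ (R.χ a⁻¹) = sgn F σ (R.χ a) := by
      apply sgn_congr
      intro v _
      rw [map_inv, Pi.inv_apply]
      exact Int.units_inv_eq_self _
    rw [h2, h1, ← mul_assoc, sgn_sq, one_mul]

/-- reconstruction -/
theorem recon (rf : RaFacts R) (D : YD R g hg) (x : Finset V → D.Y → F)
    (hx : AllCh adj (fun v y => D.act y (R.s v)) x) :
    phi F rf D (fun s q => x s.1.1 (D.e s.1.2 q)) = x := by
  funext σ y
  by_cases h : Clq adj σ
  · rw [phi_pos F rf D _ h]
    show sgn F σ (D.χ y) * x σ (D.e (eps σ (D.χ y)) (D.κ (D.act y (hs rf σ (D.χ y))))) = _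
    have h1 : D.χ (D.act y (hs rf σ (D.χ y))) = eps σ (D.χ y) := by
      rw [D.χ_act, hs_χ]
      funext v
      rw [Pi.mul_apply]
      unfold eps
      split_ifs
      · exact Int.units_mul_self _
      · rw [mul_one]
    rw [← h1, D.e_κ, asym F D (x σ) (hx.2 σ) (hs_mem rf σ _), ← mul_assoc]
    have h2 : sgn F σ (R.χ (hs rf σ (D.χ y))) = sgn F σ (D.χ y) := by
      apply sgn_congr
      intro v hv
      rw [hs_χ]
      exact if_pos hv
    rw [h2, sgn_sq, one_mul]
  · rw [phi_neg F rf D _ h]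
    by_contra hne
    apply h
    apply hx.1 σ
    intro h0
    rw [h0] at hne
    exact hne rfl

/-- the boundary of a chain is a chain -/
theorem bd_AllCh (D : YD R g hg) (o : V → ℕ) (x : Finset V → D.Y → F)
    (hx : AllCh adj (fun v y => D.act y (R.s v)) x) :
    AllCh adj (fun v y => D.act y (R.s v)) (bd F o D.Y x) := by
  refine ⟨?_, ?_⟩
  · intro τ hτ
    by_contra hcl
    apply hτ
    funext y
    rw [bd_apply]
    apply Finset.sum_eq_zero
    intro v _
    have : x (insert v τ) = 0 := by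
      by_contra h
      apply hcl
      have := hx.1 _ h
      intro a ha b hb hab
      exact this a (Finset.mem_insert_of_mem ha) b (Finset.mem_insert_of_mem hb) hab
    rw [this]; simp
  · intro τ v hv y
    rw [bd_apply, bd_apply, ← Finset.sum_neg_distrib]
    apply Finset.sum_congr rfl
    intro u _
    have := hx.2 (insert u τ) v (Finset.mem_insert_of_mem hv) y
    simp only at this
    rw [this]; ring

/-- the boundary in coordinates -/
def DD (D : YD R g hg) (o : V → ℕ) (c : CubS adj → D.Q → F) : CubS adj → D.Q → F := fun t q =>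
  ∑ s : CubS adj, ∑ v ∈ s.1.1, if t.1.1 = s.1.1.erase v then
    ((sg o v (s.1.1.erase v) : ℤ) : F) *
      ((if t.1.2 = s.1.2 then c s q else 0) -
       (if t.1.2 = s.1.2 * Pi.mulSingle v (-1) then c s (D.rm q (tr R g hg s.1.2 v)⁻¹) else 0))
  else 0

theorem single_sq (ε : V → ℤˣ) (v : V) : ε * Pi.mulSingle v (-1) * Pi.mulSingle v (-1) = ε := by
  rw [mul_assoc, ← Pi.mulSingle_mul]
  simp

theorem tr_inv (ε : V → ℤˣ) (v : V) :
    (tr R g hg (ε * Pi.mulSingle v (-1)) v)⁻¹ = tr R g hg ε v := by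
  apply Subtype.ext
  show (g (ε * Pi.mulSingle v (-1)) * R.s v *
    (g (ε * Pi.mulSingle v (-1) * Pi.mulSingle v (-1)))⁻¹)⁻¹ = g ε * R.s v *
    (g (ε * Pi.mulSingle v (-1)))⁻¹
  rw [single_sq]
  have h : (R.s v)⁻¹ = R.s v := by
    rw [inv_eq_iff_mul_eq_one]; exact R.s_sq v
  rw [mul_inv_rev, mul_inv_rev, inv_inv, h, mul_assoc]

theorem phi_DD (rf : RaFacts R) (D : YD R g hg) (o : V → ℕ) (c : CubS adj → D.Q → F) :
    phi F rf D (DD F D o c) = bd F o D.Y (phi F rf D c) := by
  rw [← recon F rf D (bd F o D.Y (phi F rf D c)) (bd_AllCh F D o _ (phi_AllCh F rf D c))]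
  congr 1
  funext t q
  symm
  rw [bd_apply]
  -- write DD as a sum over v
  have e1 : DD F D o c t q = ∑ v : V, ∑ s : CubS adj,
      if v ∈ s.1.1 ∧ t.1.1 = s.1.1.erase v then ((sg o v t.1.1 : ℤ) : F) *
      ((if t.1.2 = s.1.2 then c s q else 0) -
       (if t.1.2 = s.1.2 * Pi.mulSingle v (-1) then c s (D.rm q (tr R g hg s.1.2 v)⁻¹) else 0))
      else 0 := by
    unfold DD
    rw [Finset.sum_comm]
    apply Finset.sum_congr rfl
    intro s _
    rw [← Finset.sum_filter_add_sum_filter_not Finset.univ (fun v => v ∈ s.1.1)]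
    have e2 : ∑ v ∈ Finset.univ.filter (fun v => ¬ v ∈ s.1.1),
        (if v ∈ s.1.1 ∧ t.1.1 = s.1.1.erase v then ((sg o v t.1.1 : ℤ) : F) *
        ((if t.1.2 = s.1.2 then c s q else 0) -
         (if t.1.2 = s.1.2 * Pi.mulSingle v (-1) then c s (D.rm q (tr R g hg s.1.2 v)⁻¹) else 0))
        else 0) = 0 := by
      apply Finset.sum_eq_zero
      intro v hv
      rw [Finset.mem_filter] at hv
      exact if_neg fun h => hv.2 h.1
    rw [e2, add_zero]
    have e3 : Finset.univ.filter (fun v => v ∈ s.1.1) = s.1.1 := by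
      ext v; simp
    rw [e3]
    apply Finset.sum_congr rfl
    intro v hv
    by_cases h : t.1.1 = s.1.1.erase v
    · rw [if_pos h, if_pos (show v ∈ s.1.1 ∧ t.1.1 = s.1.1.erase v from ⟨hv, h⟩), ← h]
    · rw [if_neg h, if_neg fun h' => h h'.2]
  rw [e1]
  -- split the sum over v
  rw [← Finset.sum_sdiff (Finset.subset_univ t.1.1)]
  have e4 : ∑ v ∈ t.1.1, ∑ s : CubS adj,
      (if v ∈ s.1.1 ∧ t.1.1 = s.1.1.erase v then ((sg o v t.1.1 : ℤ) : F) *
      ((if t.1.2 = s.1.2 then c s q else 0) -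
       (if t.1.2 = s.1.2 * Pi.mulSingle v (-1) then c s (D.rm q (tr R g hg s.1.2 v)⁻¹) else 0))
      else 0) = 0 := by
    apply Finset.sum_eq_zero
    intro v hv
    apply Finset.sum_eq_zero
    intro s _
    apply if_neg
    rintro ⟨_, h⟩
    rw [h] at hv
    exact Finset.notMem_erase _ _ hv
  rw [e4, add_zero]
  apply Finset.sum_congr rfl
  intro v hv
  have hvt : v ∉ t.1.1 := (Finset.mem_sdiff.1 hv).2
  have hins : ∀ s : CubS adj, (v ∈ s.1.1 ∧ t.1.1 = s.1.1.erase v) ↔ s.1.1 = insert v t.1.1 := by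
    intro s
    constructor
    · rintro ⟨h1, h2⟩
      rw [h2, Finset.insert_erase h1]
    · intro h
      rw [h]
      exact ⟨Finset.mem_insert_self _ _, (Finset.erase_insert hvt).symm⟩
  by_cases hcl : Clq adj (insert v t.1.1)
  · rcases Int.units_eq_one_or (t.1.2 v) with h1 | h1
    · -- positive sign
      have hs1 : ∀ u ∈ insert v t.1.1, t.1.2 u = 1 := by
        intro u hu
        rcases Finset.mem_insert.1 hu with rfl | hu
        · exact h1
        · exact t.2.2 u hu
      set s0 : CubS adj := ⟨(insert v t.1.1, t.1.2), hcl, hs1⟩ with hs0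
      have e5 : phi F rf D c (insert v t.1.1) (D.e t.1.2 q) = c s0 q := phi_e F rf D c s0 q
      rw [e5, Finset.sum_eq_single s0]
      · rw [if_pos ((hins s0).2 rfl), if_pos rfl, if_neg, sub_zero]
        intro h
        have := congrFun h v
        rw [Pi.mul_apply, Pi.mulSingle_eq_same] at this
        have h3 : s0.1.2 v = 1 := h1
        have h4 : (1 : ℤˣ) = 1 * -1 := by
          calc (1 : ℤˣ) = t.1.2 v := h1.symm
            _ = s0.1.2 v * -1 := this
            _ = 1 * -1 := by rw [h3]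
        exact absurd h4 (by decide)
      · intro s _ hne
        by_cases h : v ∈ s.1.1 ∧ t.1.1 = s.1.1.erase v
        · rw [if_pos h, if_neg, if_neg, sub_zero, mul_zero]
          · intro h'
            have := congrFun h' v
            rw [Pi.mul_apply, Pi.mulSingle_eq_same, s.2.2 v h.1, h1] at this
            exact absurd this (by decide)
          · intro h'
            apply hne
            apply Subtype.ext
            apply Prod.ext
            · exact (hins s).1 h
            · exact h'.symm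
        · rw [if_neg h]
      · intro h; exact absurd (Finset.mem_univ _) h
    · -- negative sign
      have hs1 : ∀ u ∈ insert v t.1.1, (t.1.2 * Pi.mulSingle v (-1) : V → ℤˣ) u = 1 := by
        intro u hu
        rcases Finset.mem_insert.1 hu with rfl | hu
        · rw [Pi.mul_apply, Pi.mulSingle_eq_same, h1]; rfl
        · have : u ≠ v := fun h => hvt (h ▸ hu)
          rw [Pi.mul_apply, Pi.mulSingle_eq_of_ne this, mul_one]
          exact t.2.2 u hu
      set s0 : CubS adj := ⟨(insert v t.1.1, t.1.2 * Pi.mulSingle v (-1)), hcl, hs1⟩ with hs0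
      have e5 : phi F rf D c (insert v t.1.1) (D.e t.1.2 q) = - c s0 (D.rm q (tr R g hg t.1.2 v)) := by
        have h2 := (phi_AllCh F rf D c).2 (insert v t.1.1) v (Finset.mem_insert_self _ _)
          (D.e t.1.2 q)
        simp only at h2
        rw [D.e_s] at h2
        have h3 : phi F rf D c (insert v t.1.1) (D.e (t.1.2 * Pi.mulSingle v (-1))
          (D.rm q (tr R g hg t.1.2 v))) = c s0 (D.rm q (tr R g hg t.1.2 v)) :=
          phi_e F rf D c s0 _
        rw [h3] at h2
        rw [h2, neg_neg]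
      rw [e5, Finset.sum_eq_single s0]
      · rw [if_pos ((hins s0).2 rfl), if_neg, if_pos, zero_sub]
        · have h3 : (tr R g hg s0.1.2 v)⁻¹ = tr R g hg t.1.2 v := tr_inv t.1.2 v
          rw [h3]
        · show t.1.2 = t.1.2 * Pi.mulSingle v (-1) * Pi.mulSingle v (-1)
          rw [single_sq]
        · intro h
          have := congrFun h v
          have h3 : s0.1.2 v = 1 := hs1 v (Finset.mem_insert_self _ _)
          rw [h3, h1] at this
          exact absurd this (by decide)
      · intro s _ hne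
        by_cases h : v ∈ s.1.1 ∧ t.1.1 = s.1.1.erase v
        · rw [if_pos h, if_neg, if_neg, sub_zero, mul_zero]
          · intro h'
            apply hne
            apply Subtype.ext
            apply Prod.ext
            · exact (hins s).1 h
            · show s.1.2 = t.1.2 * Pi.mulSingle v (-1)
              rw [h', single_sq]
          · intro h'
            have := congrFun h' v
            rw [s.2.2 v h.1, h1] at this
            exact absurd this (by decide)
        · rw [if_neg h]
      · intro h; exact absurd (Finset.mem_univ _) h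
  · rw [phi_neg F rf D c hcl, Pi.zero_apply, mul_zero]
    symm
    apply Finset.sum_eq_zero
    intro s _
    apply if_neg
    intro h
    apply hcl
    rw [← (hins s).1 h]
    exact s.2.1

/-- the degree condition -/
theorem phi_deg (rf : RaFacts R) (D : YD R g hg) (c : CubS adj → D.Q → F) (k : ℕ) :
    (∀ s : CubS adj, ∀ q, s.1.1.card ≠ k → c s q = 0) ↔
      ∀ σ, phi F rf D c σ ≠ 0 → σ.card = k := by
  constructor
  · intro h σ hσ
    by_contra hk
    apply hσ
    funext y
    by_cases hcl : Clq adj σ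
    · rw [phi_pos F rf D c hcl, h _ _ (by exact hk), mul_zero]
      rfl
    · rw [phi_neg F rf D c hcl]
  · intro h s q hs
    by_contra hne
    apply hs
    apply h
    intro h0
    apply hne
    rw [← phi_e F rf D c s q, h0]
    rfl

end

end RE

end Pool.LU
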