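import Pool.Agent.H7.LU.Y_MDD

/-!
Project LU, part Y: module MAP (change of coefficients of the Morse complex).
-/

set_option autoImplicit false
set_option linter.unusedVariables false
set_option linter.unusedSectionVars false

open scoped BigOperators Topology Polynomial
open Filter Pool.H3.L2

noncomputable section

namespace Pool.LU.YP

theorem map_moD {V : Type} [Fintype V] [DecidableEq V] {adj : V → V → Prop} (c : Colr V adj)
    (X : XSet V adj) (R R' : Type) [CommRing R] [CommRing R'] (φ : R →+* R') (z : R) (o : V → ℕ) :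
    (moD c X R z o).map φ = moD c X R' (φ z) o := by
  classical
  ext p q
  show φ (moD c X R z o p q) = _
  unfold moD
  rw [map_sum]
  apply Finset.sum_congr rfl
  intro v _
  split_ifs <;> simp

theorem map (hMDD : MDDStmt) : MAPStmt := by
  intro V _ _ adj c X R R' _ _ φ z o hsymm ho
  have h1 : moD c X R z o * moD c X R z o = 0 := hMDD V adj c X R z o hsymm ho
  have h2 : moD c X R' (φ z) o * moD c X R' (φ z) o = 0 := hMDD V adj c X R' (φ z) o hsymm ho
  have hD : ((mor c X R z o).D).map φ = (mor c X R' (φ z) o).D :=
    (congrArg (fun D : Matrix (MoS c X) (MoS c X) R => D.map φ) (if_pos h1)).trans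
      ((map_moD c X R R' φ z o).trans (if_pos h2).symm)
  unfold BCx.map
  have key : ∀ (D D' : Matrix (MoS c X) (MoS c X) R') (h : D = D')
      (a : ∀ s t, D s t ≠ 0 → (fun p : MoS c X => p.1.2.card) s = (fun p : MoS c X => p.1.2.card) t + 1)
      (b : D * D = 0)
      (a' : ∀ s t, D' s t ≠ 0 → (fun p : MoS c X => p.1.2.card) s = (fun p : MoS c X => p.1.2.card) t + 1)
      (b' : D' * D' = 0), (BCx.mk (MoS c X) (fun p => p.1.2.card) D a b : BCx R') =
        BCx.mk (MoS c X) (fun p => p.1.2.card) D' a' b' := by
    intro D D' h a b a' b'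
    subst h
    rfl
  exact key _ _ hD _ _ _ _

end Pool.LU.YP
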