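import Pool.Agent.H7.LU.Y_MDD

/-!
Project LU, part Y: module MBI (the Morse basis of the antisymmetric functions on `X × ℤ/M`).
-/

set_option autoImplicit false
set_option linter.unusedVariables false
set_option linter.unusedSectionVars false

open scoped BigOperators Topology Polynomial
open Filter Pool.H3.L2

noncomputable section

namespace Pool.LU.YP

/-! ### extension of functions to antisymmetric functions -/

section ext

variable {V : Type} [Fintype V] [DecidableEq V] {adj : V → V → Prop} (c : Colr V adj)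
  (Y : XSet V adj) (F : Type) [CommRing F]

open Classical in
/-- antisymmetrisation in one direction -/
def mbiE (v : V) (f : Y.X → F) : Y.X → F := fun y =>
  if v ∈ Dn c Y y then f y else - f (Y.ρ v y)

/-- antisymmetrisation in several directions -/
def mbiL (l : List V) (f : Y.X → F) : Y.X → F := l.foldr (fun v f => mbiE c Y F v f) f

theorem mbiE_self (v : V) (f : Y.X → F) (y : Y.X) :
    mbiE c Y F v f (Y.ρ v y) = - mbiE c Y F v f y := by
  unfold mbiE
  by_cases h : v ∈ Dn c Y y
  · rw [if_neg (by rw [mem_Dn_self]; exact not_not.2 h), if_pos h, Y.ρρ]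
  · rw [if_pos ((mem_Dn_self c Y y v).2 h), if_neg h, neg_neg]

theorem mbiE_keep (u v : V) (huv : adj u v) (hvu : adj v u) (f : Y.X → F)
    (hf : ∀ y, f (Y.ρ u y) = - f y) (y : Y.X) :
    mbiE c Y F v f (Y.ρ u y) = - mbiE c Y F v f y := by
  unfold mbiE
  have h1 : v ∈ Dn c Y (Y.ρ u y) ↔ v ∈ Dn c Y y :=
    mem_Dn_of_ne c Y y v u (c.proper v u hvu)
  by_cases h : v ∈ Dn c Y y
  · rw [if_pos (h1.2 h), if_pos h, hf]
  · rw [if_neg (fun h' => h (h1.1 h')), if_neg h, Y.comm v u hvu, hf]

theorem mbiL_anti (hsymm : ∀ u v, adj u v → adj v u) (l : List V)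
    (hl : ∀ a ∈ l, ∀ b ∈ l, a ≠ b → adj a b) (f : Y.X → F) :
    ∀ u ∈ l, ∀ y, mbiL c Y F l f (Y.ρ u y) = - mbiL c Y F l f y := by
  induction l with
  | nil => intro u hu; exact absurd hu List.not_mem_nil
  | cons v l ih =>
    intro u hu y
    show mbiE c Y F v (mbiL c Y F l f) (Y.ρ u y) = - mbiE c Y F v (mbiL c Y F l f) y
    by_cases huv : u = v
    · rw [huv]; exact mbiE_self c Y F v _ y
    · have hu' : u ∈ l := by
        rcases List.mem_cons.1 hu with h | h
        · exact absurd h huv
        · exact h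
      have hadj := hl u hu v List.mem_cons_self huv
      apply mbiE_keep c Y F u v hadj (hsymm u v hadj)
      exact ih (fun a ha b hb => hl a (List.mem_cons_of_mem _ ha) b (List.mem_cons_of_mem _ hb)) u hu'

theorem mbiL_val (l : List V) (f : Y.X → F) (y : Y.X) (h : ∀ v ∈ l, v ∈ Dn c Y y) :
    mbiL c Y F l f y = f y := by
  induction l with
  | nil => rfl
  | cons v l ih =>
    show mbiE c Y F v (mbiL c Y F l f) y = f y
    unfold mbiE
    rw [if_pos (h v List.mem_cons_self)]
    exact ih fun u hu => h u (List.mem_cons_of_mem _ hu)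

theorem mbiL_zero (l : List V) : mbiL c Y F l 0 = 0 := by
  induction l with
  | nil => rfl
  | cons v l ih =>
    show mbiE c Y F v (mbiL c Y F l 0) = 0
    rw [ih]
    funext y
    unfold mbiE
    split_ifs
    · rfl
    · exact neg_zero

open Classical in
/-- an antisymmetric family which vanishes at the base points is zero -/
theorem mbi_inj (x : Finset V → Y.X → F) (hx : ∀ σ, x σ ≠ 0 → Clq adj σ)
    (hx' : ∀ σ, ∀ v ∈ σ, ∀ y, x σ (Y.ρ v y) = - x σ y)
    (h0 : ∀ σ y, Clq adj σ → (∀ v ∈ σ, v ∈ Dn c Y y) → x σ y = 0) : x = 0 := by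
  funext σ
  by_cases hσ : Clq adj σ
  · have key : ∀ n, ∀ y, (σ.filter (fun v => v ∉ Dn c Y y)).card = n → x σ y = 0 := by
      intro n
      induction n with
      | zero =>
        intro y hy
        apply h0 σ y hσ
        intro v hv
        by_contra hcon
        rw [Finset.card_eq_zero] at hy
        have : v ∈ σ.filter (fun v => v ∉ Dn c Y y) := Finset.mem_filter.2 ⟨hv, hcon⟩
        rw [hy] at this
        exact Finset.notMem_empty _ this
      | succ n ih =>
        intro y hy
        have hne : (σ.filter (fun v => v ∉ Dn c Y y)).Nonempty := by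
          rw [← Finset.card_pos, hy]; omega
        obtain ⟨v, hv⟩ := hne
        have hvσ := (Finset.mem_filter.1 hv).1
        have hvD := (Finset.mem_filter.1 hv).2
        have h1 : x σ (Y.ρ v y) = 0 := by
          apply ih
          have : σ.filter (fun u => u ∉ Dn c Y (Y.ρ v y)) =
              (σ.filter (fun u => u ∉ Dn c Y y)).erase v := by
            ext u
            rw [Finset.mem_filter, Finset.mem_erase, Finset.mem_filter]
            by_cases huv : u = v
            · subst huv
              constructor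
              · rintro ⟨_, h⟩
                exact absurd ((mem_Dn_self c Y y u).2 hvD) h
              · rintro ⟨h, _⟩
                exact absurd rfl h
            · constructor
              · rintro ⟨h2, h3⟩
                refine ⟨huv, h2, ?_⟩
                rwa [mem_Dn_of_ne c Y y u v (c.proper u v (hσ u h2 v hvσ huv))] at h3
              · rintro ⟨_, h2, h3⟩
                refine ⟨h2, ?_⟩
                rwa [mem_Dn_of_ne c Y y u v (c.proper u v (hσ u h2 v hvσ huv))]
          rw [this, Finset.card_erase_of_mem hv, hy]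
          omega
        rw [hx' σ v hvσ y, neg_eq_zero] at h1
        exact h1
    funext y
    exact key _ y rfl
  · by_contra hne
    exact hσ (hx σ hne)

end ext

/-! ### the comparison map -/

section cmp

variable {V : Type} [Fintype V] [DecidableEq V] {adj : V → V → Prop} (c : Colr V adj)
  (X : XSet V adj) (M : ℕ) [NeZero M] (F : Type) [CommRing F] (R : Type)
  [CommRing R] [Algebra F R] (z : R) (e : R ≃ₗ[F] (ZMod M → F)) (o : V → ℕ)

/-- the comparison map -/
def mbiT : (Finset V → (xM c X M).X → F) →ₗ[F] (MoS c X → R) where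
  toFun x := fun p => e.symm (fun j => x p.1.2 (p.1.1, j))
  map_add' x x' := by
    funext p
    exact map_add e.symm (fun j => x p.1.2 (p.1.1, j)) (fun j => x' p.1.2 (p.1.1, j))
  map_smul' a x := by
    funext p
    exact map_smul e.symm a (fun j => x p.1.2 (p.1.1, j))

theorem mbiT_apply (x : Finset V → (xM c X M).X → F) (p : MoS c X) :
    mbiT c X M F R e x p = e.symm (fun j => x p.1.2 (p.1.1, j)) := rfl

theorem Dn_xM (p : (xM c X M).X) : Dn c (xM c X M) p = Dn c X p.1 := rfl

theorem mbiT_inj (x : Finset V → (xM c X M).X → F) (hx : ∀ σ, x σ ≠ 0 → Clq adj σ)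
    (hx' : ∀ σ, ∀ v ∈ σ, ∀ y, x σ ((xM c X M).ρ v y) = - x σ y)
    (h0 : mbiT c X M F R e x = 0) : x = 0 := by
  apply mbi_inj c (xM c X M) F x hx hx'
  rintro σ ⟨y, j⟩ hσ hD
  have h1 := congrFun h0 ⟨(y, σ), hσ, hD⟩
  have h2 : e.symm (fun j => x σ (y, j)) = 0 := h1
  rw [LinearEquiv.map_eq_zero_iff] at h2
  exact congrFun h2 j

open Classical in
/-- the chain with given values -/
def mbiX (w : MoS c X → R) : Finset V → (xM c X M).X → F := fun σ =>
  if Clq adj σ then mbiL c (xM c X M) F σ.toList
    (fun p => if h : Clq adj σ ∧ ∀ v ∈ σ, v ∈ Dn c X p.1 then e (w ⟨(p.1, σ), h⟩) p.2 else 0)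
  else 0

open Classical in
theorem mbiX_mem (hsymm : ∀ u v, adj u v → adj v u) (k : ℕ) (w : MoS c X → R)
    (hw : ∀ p : MoS c X, p.1.2.card ≠ k → w p = 0) :
    mbiX c X M F R e w ∈ Ch F adj (xM c X M).ρ Set.univ k := by
  refine ⟨?_, ?_⟩
  · intro σ hσ
    unfold mbiX at hσ
    by_cases h : Clq adj σ
    · rw [if_pos h] at hσ
      refine ⟨?_, fun v _ => Set.mem_univ v, h⟩
      by_contra hk
      apply hσ
      have : (fun p : (xM c X M).X => if h : Clq adj σ ∧ ∀ v ∈ σ, v ∈ Dn c X p.1 then
          e (w ⟨(p.1, σ), h⟩) p.2 else (0 : F)) = 0 := by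
        funext p
        by_cases h' : Clq adj σ ∧ ∀ v ∈ σ, v ∈ Dn c X p.1
        · rw [dif_pos h', hw ⟨(p.1, σ), h'⟩ hk, map_zero]
          rfl
        · rw [dif_neg h']
          rfl
      rw [this]
      exact mbiL_zero c (xM c X M) F _
    · rw [if_neg h] at hσ
      exact absurd rfl hσ
  · intro σ v hv y
    unfold mbiX
    by_cases h : Clq adj σ
    · rw [if_pos h]
      apply mbiL_anti c (xM c X M) F hsymm
      · intro a ha b hb hab
        exact h a (Finset.mem_toList.1 ha) b (Finset.mem_toList.1 hb) hab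
      · exact Finset.mem_toList.2 hv
    · rw [if_neg h]
      simp

theorem mbiT_X (w : MoS c X → R) : mbiT c X M F R e (mbiX c X M F R e w) = w := by
  funext p
  rw [mbiT_apply]
  have h : (fun j => mbiX c X M F R e w p.1.2 (p.1.1, j)) = e (w p) := by
    funext j
    unfold mbiX
    rw [if_pos p.2.1]
    refine (mbiL_val c (xM c X M) F _ _ (p.1.1, j) ?_).trans ?_
    · intro v hv
      exact p.2.2 v (Finset.mem_toList.1 hv)
    · have h1 : Clq adj p.1.2 ∧ ∀ v ∈ p.1.2, v ∈ Dn c X (p.1.1, j).1 := p.2
      exact (dif_pos h1).trans rfl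
  rw [h, LinearEquiv.symm_apply_apply]

theorem mbiT_bd (he : ∀ r j, e (z * r) j = e r (j + 1)) (x : Finset V → (xM c X M).X → F)
    (hx : ∀ σ, x σ ≠ 0 → Clq adj σ)
    (hx' : ∀ σ, ∀ v ∈ σ, ∀ y, x σ ((xM c X M).ρ v y) = - x σ y) :
    mbiT c X M F R e (bd F o (xM c X M).X x) = Matrix.vecMul (mbiT c X M F R e x) (moD c X R z o) := by
  funext q
  rw [← mddExt_val c X R (Matrix.vecMul (mbiT c X M F R e x) (moD c X R z o)) q, mddExt_vecMul]
  rw [mbiT_apply]
  have h1 : (fun j => bd F o (xM c X M).X x q.1.2 (q.1.1, j)) =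
      ∑ v ∈ Finset.univ \ q.1.2, ((sg o v q.1.2 : ℤ) : F) • (fun j => x (insert v q.1.2) (q.1.1, j)) := by
    funext j
    refine (bd_apply F o (xM c X M).X x q.1.2 (q.1.1, j)).trans ?_
    rw [Finset.sum_apply]
    rfl
  rw [h1, map_sum]
  unfold mddB
  apply Finset.sum_congr rfl
  intro v hv
  have hvt : v ∉ q.1.2 := (Finset.mem_sdiff.1 hv).2
  rw [map_smul, Algebra.smul_def, map_intCast]
  congr 1
  by_cases hcl : Clq adj (insert v q.1.2)
  · by_cases hD : v ∈ Dn c X q.1.1
    · have h2 : Clq adj (insert v q.1.2) ∧ ∀ u ∈ insert v q.1.2, u ∈ Dn c X q.1.1 := by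
        refine ⟨hcl, fun u hu => ?_⟩
        rcases Finset.mem_insert.1 hu with rfl | hu
        · exact hD
        · exact q.2.2 u hu
      have h3 : ¬ (Clq adj (insert v q.1.2) ∧ ∀ u ∈ insert v q.1.2, u ∈ Dn c X (X.ρ v q.1.1)) := by
        rintro ⟨_, h⟩
        exact (mem_Dn_self c X q.1.1 v).1 (h v (Finset.mem_insert_self _ _)) hD
      unfold mddExt
      rw [dif_pos h2, dif_neg h3, mul_zero, sub_zero]
      rfl
    · have h2 : ¬ (Clq adj (insert v q.1.2) ∧ ∀ u ∈ insert v q.1.2, u ∈ Dn c X q.1.1) := by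
        rintro ⟨_, h⟩
        exact hD (h v (Finset.mem_insert_self _ _))
      have h3 : Clq adj (insert v q.1.2) ∧ ∀ u ∈ insert v q.1.2, u ∈ Dn c X (X.ρ v q.1.1) := by
        refine ⟨hcl, fun u hu => ?_⟩
        by_cases huv : u = v
        · rw [huv]; exact (mem_Dn_self c X q.1.1 v).2 hD
        · have hu' : u ∈ q.1.2 := by
            rcases Finset.mem_insert.1 hu with h | h
            · exact absurd h huv
            · exact h
          rw [mem_Dn_of_ne c X q.1.1 u v (c.proper u v (hcl u hu v (Finset.mem_insert_self _ _) huv))]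
          exact q.2.2 u hu'
      unfold mddExt
      rw [dif_neg h2, dif_pos h3, zero_sub]
      have h4 : mbiT c X M F R e x ⟨(X.ρ v q.1.1, insert v q.1.2), h3⟩ =
          e.symm (fun j => x (insert v q.1.2) (X.ρ v q.1.1, j)) := rfl
      rw [h4]
      apply e.injective
      rw [LinearEquiv.apply_symm_apply, map_neg]
      funext j
      rw [Pi.neg_apply, he, LinearEquiv.apply_symm_apply]
      have h5 := hx' (insert v q.1.2) v (Finset.mem_insert_self _ _) (q.1.1, j)
      have h6 : (xM c X M).ρ v (q.1.1, j) = (X.ρ v q.1.1, j + 1) := by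
        show (X.ρ v q.1.1, j + (eps c X q.1.1 v : ZMod M)) = _
        unfold eps
        rw [if_neg hD]
        simp
      rw [h6] at h5
      rw [h5, neg_neg]
  · have h0 : x (insert v q.1.2) = 0 := by
      by_contra hne
      exact hcl (hx _ hne)
    have h2 : ∀ y, mddExt c X R (mbiT c X M F R e x) (insert v q.1.2) y = 0 := by
      intro y
      exact dif_neg fun h => hcl h.1
    rw [h2, h2, mul_zero, sub_zero, h0]
    exact map_zero e.symm

end cmp

theorem mbi (hMDD : MDDStmt) : MBIStmt := by
  intro V _ _ adj c X M _ F _ R _ _ z e o hsymm hirr ho he k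
  have hD0 : moD c X R z o * moD c X R z o = 0 := hMDD V adj c X R z o hsymm ho
  have hD : (mor c X R z o).D = moD c X R z o := if_pos hD0
  set T := mbiT c X M F R e with hT
  -- degrees
  have hdeg : ∀ k x, x ∈ Ch F adj (xM c X M).ρ Set.univ k →
      ∀ p : MoS c X, p.1.2.card ≠ k → T x p = 0 := by
    intro k x hx p hp
    have : x p.1.2 = 0 := by
      by_contra hne
      exact hp (hx.1 _ hne).1
    rw [hT, mbiT_apply, this]
    exact map_zero e.symm
  have hbd : ∀ k x, x ∈ Ch F adj (xM c X M).ρ Set.univ k →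
      T (bd F o (xM c X M).X x) = Matrix.vecMul (T x) (mor c X R z o).D := by
    intro k x hx
    rw [hD]
    exact mbiT_bd c X M F R z e o he x (fun σ hσ => (hx.1 σ hσ).2.2) hx.2
  have hinj : ∀ k x, x ∈ Ch F adj (xM c X M).ρ Set.univ k → T x = 0 → x = 0 := by
    intro k x hx h0
    exact mbiT_inj c X M F R e x (fun σ hσ => (hx.1 σ hσ).2.2) hx.2 h0
  have hsurj : ∀ k (w : MoS c X → R), (∀ p : MoS c X, p.1.2.card ≠ k → w p = 0) →
      ∃ x ∈ Ch F adj (xM c X M).ρ Set.univ k, T x = w := by
    intro k w hw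
    exact ⟨mbiX c X M F R e w, mbiX_mem c X M F R e hsymm k w hw, mbiT_X c X M F R e w⟩
  -- boundaries are chains
  have hbdCh : ∀ k x, x ∈ Ch F adj (xM c X M).ρ Set.univ (k + 1) →
      bd F o (xM c X M).X x ∈ Ch F adj (xM c X M).ρ Set.univ k := fun k x hx =>
    bd_mem F adj o (xM c X M).X (xM c X M).ρ Set.univ k x hx
  -- T maps cycles to cycles
  have hZ : ∀ x ∈ Ch F adj (xM c X M).ρ Set.univ k ⊓ LinearMap.ker (bd F o (xM c X M).X),
      T x ∈ (mor c X R z o).Zk k := by
    intro x hx
    refine ⟨hdeg k x hx.1, ?_⟩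
    have h1 : bd F o (xM c X M).X x = 0 := hx.2
    refine (hbd k x hx.1).symm.trans ?_
    rw [h1, map_zero]
    rfl
  let ψ : ↥(Ch F adj (xM c X M).ρ Set.univ k ⊓ LinearMap.ker (bd F o (xM c X M).X)) →ₗ[F]
      (mor c X R z o).Hk k :=
    { toFun := fun x => Submodule.Quotient.mk ⟨T x.1, hZ x.1 x.2⟩
      map_add' := fun x y => by
        rw [← Submodule.Quotient.mk_add]
        congr 1
        apply Subtype.ext
        exact map_add T x.1 y.1
      map_smul' := fun a x => by
        show Submodule.Quotient.mk _ = a • Submodule.Quotient.mk _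
        rw [← Submodule.Quotient.mk_smul]
        congr 1
        apply Subtype.ext
        exact map_smul T a x.1 }
  have hψ : ∀ x, ψ x = Submodule.Quotient.mk ⟨T x.1, hZ x.1 x.2⟩ := fun x => rfl
  have hψs : Function.Surjective ψ := by
    intro h
    obtain ⟨w, rfl⟩ := Submodule.Quotient.mk_surjective _ h
    obtain ⟨x, hx, hxw⟩ := hsurj k w.1 w.2.1
    have hx0 : bd F o (xM c X M).X x = 0 := by
      have h1 : T (bd F o (xM c X M).X x) = 0 := by
        rw [hbd k x hx, hxw]
        exact w.2.2
      exact mbiT_inj c X M F R e _ (fun τ hτ => by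
          by_contra hcl
          apply hτ
          funext y
          rw [bd_apply]
          apply Finset.sum_eq_zero
          intro v _
          have : x (insert v τ) = 0 := by
            by_contra h
            apply hcl
            have := (hx.1 _ h).2.2
            intro a ha b hb hab
            exact this a (Finset.mem_insert_of_mem ha) b (Finset.mem_insert_of_mem hb) hab
          rw [this]; simp)
        (fun τ v hv y => by
          rw [bd_apply, bd_apply, ← Finset.sum_neg_distrib]
          apply Finset.sum_congr rfl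
          intro u _
          rw [hx.2 (insert u τ) v (Finset.mem_insert_of_mem hv) y]; ring) h1
    refine ⟨⟨x, hx, hx0⟩, ?_⟩
    rw [hψ]
    congr 1
    exact Subtype.ext hxw
  have hker : LinearMap.ker ψ = ((Ch F adj (xM c X M).ρ Set.univ (k + 1)).map
      (bd F o (xM c X M).X)).submoduleOf
      (Ch F adj (xM c X M).ρ Set.univ k ⊓ LinearMap.ker (bd F o (xM c X M).X)) := by
    ext x
    rw [LinearMap.mem_ker, hψ, Submodule.Quotient.mk_eq_zero, Submodule.submoduleOf,
      Submodule.submoduleOf, Submodule.mem_comap, Submodule.mem_comap, Submodule.mem_map]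
    constructor
    · rintro ⟨w, hw, hwD⟩
      obtain ⟨y, hy, hyw⟩ := hsurj (k + 1) w hw
      refine ⟨y, hy, ?_⟩
      have e1 : T (bd F o (xM c X M).X y) = T x.1 := by
        refine (hbd (k + 1) y hy).trans ?_
        have h3 := hwD
        rw [← hyw] at h3
        exact h3
      have h1 : T (bd F o (xM c X M).X y - x.1) = 0 := by
        rw [map_sub, e1, sub_self]
      have h2 : bd F o (xM c X M).X y - x.1 ∈ Ch F adj (xM c X M).ρ Set.univ k :=
        Submodule.sub_mem _ (hbdCh k y hy) x.2.1
      exact sub_eq_zero.1 (hinj k _ h2 h1)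
    · rintro ⟨y, hy, hyx⟩
      refine ⟨T y, hdeg (k + 1) y hy, ?_⟩
      refine (hbd (k + 1) y hy).symm.trans ?_
      exact congrArg T hyx
  exact ⟨(Submodule.quotEquivOfEq _ _ hker.symm).trans (ψ.quotKerEquivOfSurjective hψs)⟩

end Pool.LU.YP
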