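import Pool.Agent.H32.LU.YStmts
import Pool.Agent.H72.LU.CHB

/-!
Project LU, part Y: module MDD (the square of the boundary matrix of the Morse complex is zero).
-/

set_option autoImplicit false
set_option linter.unusedVariables false
set_option linter.unusedSectionVars false

open scoped BigOperators Topology Polynomial
open Filter Pool.H3.L2

noncomputable section

namespace Pool.LU.YP

section

variable {V : Type} [Fintype V] [DecidableEq V] {adj : V → V → Prop} (c : Colr V adj)
  (X : XSet V adj) (R : Type) [CommRing R] (z : R) (o : V → ℕ)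

open Classical in
/-- extension by zero -/
def mddExt (w : MoS c X → R) : Finset V → X.X → R := fun σ y =>
  if h : Clq adj σ ∧ ∀ v ∈ σ, v ∈ Dn c X y then w ⟨(y, σ), h⟩ else 0

/-- the boundary operator with the parameter `z` -/
def mddB (x : Finset V → X.X → R) : Finset V → X.X → R := fun τ y =>
  ∑ v ∈ Finset.univ \ τ, ((sg o v τ : ℤ) : R) * (x (insert v τ) y - z * x (insert v τ) (X.ρ v y))

theorem mddExt_val (w : MoS c X → R) (p : MoS c X) : mddExt c X R w p.1.2 p.1.1 = w p :=
  dif_pos p.2

open Classical in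
theorem mdd_sum (w : MoS c X → R) (σ : Finset V) (y : X.X) :
    ∑ p : MoS c X, (if p.1 = (y, σ) then w p else 0) = mddExt c X R w σ y := by
  by_cases h : Clq adj σ ∧ ∀ v ∈ σ, v ∈ Dn c X y
  · refine (Finset.sum_eq_single (⟨(y, σ), h⟩ : MoS c X) ?_ ?_).trans ?_
    · intro p _ hp
      exact if_neg fun h' => hp (Subtype.ext h')
    · intro h'; exact absurd (@Finset.mem_univ (MoS c X) _ ⟨(y, σ), h⟩) h'
    · rw [if_pos rfl]
      unfold mddExt
      rw [dif_pos h]
  · have : mddExt c X R w σ y = 0 := dif_neg h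
    rw [this]
    apply Finset.sum_eq_zero
    intro p _
    apply if_neg
    intro h'
    apply h
    have := p.2
    rw [h'] at this
    exact this

theorem mddExt_vecMul (w : MoS c X → R) :
    mddExt c X R (Matrix.vecMul w (moD c X R z o)) = mddB X R z o (mddExt c X R w) := by
  classical
  funext τ y
  by_cases hq : Clq adj τ ∧ ∀ v ∈ τ, v ∈ Dn c X y
  · have h0 : mddExt c X R (Matrix.vecMul w (moD c X R z o)) τ y =
        Matrix.vecMul w (moD c X R z o) ⟨(y, τ), hq⟩ := dif_pos hq
    rw [h0]
    have e0 : Matrix.vecMul w (moD c X R z o) ⟨(y, τ), hq⟩ =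
        ∑ p : MoS c X, ∑ v : V, if v ∈ p.1.2 ∧ τ = p.1.2.erase v then ((sg o v τ : ℤ) : R) *
          (w p * ((if y = p.1.1 then 1 else 0) - (if y = X.ρ v p.1.1 then z else 0))) else 0 := by
      show ∑ p : MoS c X, w p * moD c X R z o p ⟨(y, τ), hq⟩ = _
      apply Finset.sum_congr rfl
      intro p _
      unfold moD
      rw [Finset.mul_sum, ← Finset.sum_filter_add_sum_filter_not Finset.univ (fun v => v ∈ p.1.2)]
      have e2 : ∑ v ∈ Finset.univ.filter (fun v => ¬ v ∈ p.1.2),
          (if v ∈ p.1.2 ∧ τ = p.1.2.erase v then ((sg o v τ : ℤ) : R) *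
          (w p * ((if y = p.1.1 then 1 else 0) - (if y = X.ρ v p.1.1 then z else 0))) else 0) = 0 := by
        apply Finset.sum_eq_zero
        intro v hv
        rw [Finset.mem_filter] at hv
        exact if_neg fun h => hv.2 h.1
      rw [e2, add_zero]
      have e3 : Finset.univ.filter (fun v => v ∈ p.1.2) = p.1.2 := by
        ext v; simp
      rw [e3]
      apply Finset.sum_congr rfl
      intro v hv
      by_cases h : τ = p.1.2.erase v
      · rw [if_pos h, if_pos (show v ∈ p.1.2 ∧ τ = p.1.2.erase v from ⟨hv, h⟩), ← h]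
        ring
      · rw [if_neg h, if_neg fun h' : v ∈ p.1.2 ∧ τ = p.1.2.erase v => h h'.2, mul_zero]
    rw [e0, Finset.sum_comm, ← Finset.sum_sdiff (Finset.subset_univ τ)]
    have e4 : ∑ v ∈ τ, ∑ p : MoS c X, (if v ∈ p.1.2 ∧ τ = p.1.2.erase v then ((sg o v τ : ℤ) : R) *
          (w p * ((if y = p.1.1 then 1 else 0) - (if y = X.ρ v p.1.1 then z else 0))) else 0) = 0 := by
      apply Finset.sum_eq_zero
      intro v hv
      apply Finset.sum_eq_zero
      intro p _
      apply if_neg
      rintro ⟨_, h⟩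
      rw [h] at hv
      exact Finset.notMem_erase _ _ hv
    rw [e4, add_zero]
    unfold mddB
    apply Finset.sum_congr rfl
    intro v hv
    have hvt : v ∉ τ := (Finset.mem_sdiff.1 hv).2
    rw [← mdd_sum, ← mdd_sum, Finset.mul_sum, ← Finset.sum_sub_distrib, Finset.mul_sum]
    apply Finset.sum_congr rfl
    intro p _
    have hins : (v ∈ p.1.2 ∧ τ = p.1.2.erase v) ↔ p.1.2 = insert v τ := by
      constructor
      · rintro ⟨h1, h2⟩
        rw [h2, Finset.insert_erase h1]
      · intro h
        rw [h]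
        exact ⟨Finset.mem_insert_self _ _, (Finset.erase_insert hvt).symm⟩
    by_cases h1 : p.1.2 = insert v τ
    · rw [if_pos (hins.2 h1)]
      congr 1
      have h2 : (p.1 = (y, insert v τ)) ↔ y = p.1.1 := by
        constructor
        · intro h; rw [h]
        · intro h; exact Prod.ext h.symm h1
      have h3 : (p.1 = (X.ρ v y, insert v τ)) ↔ y = X.ρ v p.1.1 := by
        constructor
        · intro h; rw [h]; exact (X.ρρ v y).symm
        · intro h
          refine Prod.ext ?_ h1
          show p.1.1 = X.ρ v y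
          rw [h, X.ρρ]
      rw [mul_sub]
      congr 1
      · by_cases h4 : y = p.1.1
        · rw [if_pos h4, if_pos (h2.2 h4), mul_one]
        · rw [if_neg h4, if_neg (fun h => h4 (h2.1 h)), mul_zero]
      · by_cases h4 : y = X.ρ v p.1.1
        · rw [if_pos h4, if_pos (h3.2 h4), mul_comm]
        · rw [if_neg h4, if_neg (fun h => h4 (h3.1 h)), mul_zero, mul_zero]
    · rw [if_neg (fun h => h1 (hins.1 h)), if_neg (fun h : p.1 = (y, insert v τ) => h1 (by rw [h])),
        if_neg (fun h : p.1 = (X.ρ v y, insert v τ) => h1 (by rw [h])), mul_zero, sub_zero, mul_zero]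
  · have h0 : mddExt c X R (Matrix.vecMul w (moD c X R z o)) τ y = 0 := dif_neg hq
    rw [h0]
    symm
    unfold mddB
    apply Finset.sum_eq_zero
    intro v hv
    have hvt : v ∉ τ := (Finset.mem_sdiff.1 hv).2
    have h1 : mddExt c X R w (insert v τ) y = 0 := by
      apply dif_neg
      rintro ⟨h1, h2⟩
      exact hq ⟨fun a ha b hb hab => h1 a (Finset.mem_insert_of_mem ha) b
        (Finset.mem_insert_of_mem hb) hab, fun u hu => h2 u (Finset.mem_insert_of_mem hu)⟩
    have h2 : mddExt c X R w (insert v τ) (X.ρ v y) = 0 := by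
      apply dif_neg
      rintro ⟨h1, h2⟩
      refine hq ⟨fun a ha b hb hab => h1 a (Finset.mem_insert_of_mem ha) b
        (Finset.mem_insert_of_mem hb) hab, fun u hu => ?_⟩
      have hne : u ≠ v := fun h => hvt (h ▸ hu)
      have h3 := h2 u (Finset.mem_insert_of_mem hu)
      rwa [mem_Dn_of_ne c X y u v (c.proper u v (h1 u (Finset.mem_insert_of_mem hu) v
        (Finset.mem_insert_self _ _) hne))] at h3
    rw [h1, h2, mul_zero, sub_zero, mul_zero]

theorem mddB_B (ho : Function.Injective o) (x : Finset V → X.X → R)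
    (hx : ∀ σ, ¬ Clq adj σ → x σ = 0) : mddB X R z o (mddB X R z o x) = 0 := by
  funext τ y
  have e : mddB X R z o (mddB X R z o x) τ y = ∑ v ∈ Finset.univ \ τ,
      ∑ u ∈ Finset.univ \ (insert v τ), ((sg o v τ : ℤ) : R) * ((sg o u (insert v τ) : ℤ) : R) *
        (x (insert u (insert v τ)) y - z * x (insert u (insert v τ)) (X.ρ u y) -
          z * x (insert u (insert v τ)) (X.ρ v y) +
          z ^ 2 * x (insert u (insert v τ)) (X.ρ u (X.ρ v y))) := by
    unfold mddB
    apply Finset.sum_congr rfl
    intro v _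
    rw [Finset.mul_sum, ← Finset.sum_sub_distrib, Finset.mul_sum]
    apply Finset.sum_congr rfl
    intro u _
    ring
  rw [e, Finset.sum_sigma']
  show _ = (0 : R)
  refine Finset.sum_involution (fun a _ => ⟨a.2, a.1⟩) ?_ ?_ ?_ ?_
  · rintro ⟨v, u⟩ hm
    simp only [Finset.mem_sigma, Finset.mem_sdiff, Finset.mem_univ, true_and,
      Finset.mem_insert, not_or] at hm
    obtain ⟨hv, huv, hu⟩ := hm
    have h1 := sg_swap o ho u v huv τ hu hv
    have h2 : insert u (insert v τ) = insert v (insert u τ) := Finset.insert_comm _ _ _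
    have h3 : ((sg o v τ : ℤ) : R) * ((sg o u (insert v τ) : ℤ) : R) =
        - (((sg o u τ : ℤ) : R) * ((sg o v (insert u τ) : ℤ) : R)) := by
      exact_mod_cast congrArg (fun z : ℤ => (z : R)) h1
    simp only
    rw [h2, h3]
    by_cases hcl : Clq adj (insert v (insert u τ))
    · have h4 : X.ρ u (X.ρ v y) = X.ρ v (X.ρ u y) := X.comm u v (hcl u (by simp) v (by simp) huv) y
      rw [h4]
      ring
    · rw [hx _ hcl]
      simp
  · rintro ⟨v, u⟩ hm _ h
    simp only [Finset.mem_sigma, Finset.mem_sdiff, Finset.mem_univ, true_and,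
      Finset.mem_insert, not_or] at hm
    have h' := congrArg Sigma.fst h
    exact hm.2.1 h'
  · rintro ⟨v, u⟩ hm
    simp only [Finset.mem_sigma, Finset.mem_sdiff, Finset.mem_univ, true_and,
      Finset.mem_insert, not_or] at hm ⊢
    exact ⟨hm.2.2, fun h => hm.2.1 h.symm, hm.1⟩
  · rintro ⟨v, u⟩ hm
    rfl

end

theorem mdd : MDDStmt := by
  intro V _ _ adj c X R _ z o hsymm ho
  have h1 : ∀ w : MoS c X → R, Matrix.vecMul w (moD c X R z o * moD c X R z o) = 0 := by
    intro w
    rw [← Matrix.vecMul_vecMul]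
    have h2 : mddExt c X R (Matrix.vecMul (Matrix.vecMul w (moD c X R z o)) (moD c X R z o)) = 0 := by
      rw [mddExt_vecMul, mddExt_vecMul]
      apply mddB_B X R z o ho
      intro σ hσ
      funext y
      exact dif_neg fun h => hσ h.1
    funext p
    rw [← mddExt_val c X R (Matrix.vecMul (Matrix.vecMul w (moD c X R z o)) (moD c X R z o)) p, h2]
    rfl
  ext p q
  have h2 := congrFun (h1 (Pi.single p 1)) q
  rw [Matrix.single_one_vecMul] at h2
  exact h2

end Pool.LU.YP
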